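import Pool.Agent.W2helper74.SOS.S1All

set_option autoImplicit false

/-!
# The sets `S_1(n)` for all `n`: ranks of sums of squares divisible by `‖z‖²`

`S_1(n)` is the set of all ranks `m` of sums of squares `∑_(j < m) |p_j(z)|²` of linearly independent
holomorphic polynomials on `ℂⁿ` which are divisible by `‖z‖²`. We determine `S_1(n)` for every `n ≥ 1`:
`m ∈ S_1(n)` if and only if

* `m ≥ n²`, or
* `m = n r - s` with `r ≤ n` and `s ≤ r² / 4`, or
* `m = n r - s` with `r ≤ n` and `a (a - 1) / 2 ≤ s ≤ a (a - 1) / 2 + (r + 1 - a) (r - a) / 2` for an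
  `a` with `(r + 1) / 2 ≤ a ≤ r`, or
* `(n, m) = (6, 19)`.

So, for example, `S_1(7)` is the complement of `{1, ..., 6} ∪ {8, ..., 12} ∪ {15, 16, 17} ∪ {23}`.

Method. Let `V` be the span of the `p_j` (homogeneous after a shift of exponents),
`A = ∑_(i < r) ± |q_i|²` the quotient, `E` the span of the `q_i`.

*Quotients that are sums of squares.* Then `m = dim V` with `V = V_1 E` (products with linear forms).
Let `s = n r - m` be the number of linear syzygies. For generic `T ⊆ ℂⁿ` of dimension `j` the profile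
`k_j = dim V_1 E|_(T_j) - dim V_1 E|_(T_(j-1))` is bounded below by `min(k_(j+1), j)`, with equality only in
special cases. If `E` has a large common factor structure then `s = a (a - 1) / 2 + s'` with
`s' ≤ (r + 1 - a) (r - a) / 2` (star theorem); else `s ≤ r² / 4` by an arithmetic analysis of the
profile.

*Quotients that are not sums of squares.* Here `m` is large by refined chain inequalities, by the
subtraction of squares, by restriction to `ℂ³` and by the forward lemma; `(n, m) = (6, 19)` is the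
only rank which comes from a quotient of this kind and from no sum of squares.
-/

open MvPolynomial

namespace Pool.Agent.Results.MP_ce7760_an.FullDetermination

/-- `∑ j, |p j (z)|² = ‖z‖² * A (z, conj z)` on `ℂⁿ` -/
def IsQuotient {n m : ℕ} (p : Fin m → MvPolynomial (Fin n) ℂ)
    (A : MvPolynomial (Fin n ⊕ Fin n) ℂ) : Prop :=
  ∀ z : Fin n → ℂ, ((∑ j, ‖eval z (p j)‖ ^ 2 : ℝ) : ℂ) =
    ((∑ k, ‖z k‖ ^ 2 : ℝ) : ℂ) * eval (Sum.elim z (fun k => (starRingEnd ℂ) (z k))) A

/-- `SosRanks n` is the set `S_1(n)` of all `m` such that there are `m` linearly independent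
holomorphic polynomials `p 0, ..., p (m-1)` on `ℂⁿ` with `∑ j, |p j (z)|² = ‖z‖² * A (z, conj z)` for a
polynomial `A` in `z` and `conj z`. -/
def SosRanks (n : ℕ) : Set ℕ :=
  {m | ∃ p : Fin m → MvPolynomial (Fin n) ℂ, LinearIndependent ℂ p ∧
    ∃ A : MvPolynomial (Fin n ⊕ Fin n) ℂ, IsQuotient p A}

lemma mem_iff (n m : ℕ) : m ∈ SosRanks n ↔ m ∈ Pool.Agent.W2helper74.SOS.S1 n := by
  unfold SosRanks IsQuotient Pool.Agent.W2helper74.SOS.S1
  simp only [Set.mem_ofPred_eq, pow_one]

theorem result (n : ℕ) (hn : 1 ≤ n) :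
    SosRanks n = {m : ℕ | n ^ 2 ≤ m ∨ (n = 6 ∧ m = 19) ∨
      ∃ r s : ℕ, r ≤ n ∧ m + s = n * r ∧
        (4 * s ≤ r ^ 2 ∨ ∃ a : ℕ, r + 1 ≤ 2 * a ∧ a ≤ r ∧
          a.choose 2 ≤ s ∧ s ≤ a.choose 2 + (r + 1 - a).choose 2)} := by
  ext m
  rw [mem_iff, Pool.Agent.W2helper74.SOS.full n m hn]
  unfold Pool.Agent.W2helper74.SOS.InS
  simp only [Set.mem_ofPred_eq]
  have e1 : ∀ a : ℕ, a.choose 2 = a * (a - 1) / 2 := Nat.choose_two_right
  have e2 : ∀ r a : ℕ, a ≤ r → (r + 1 - a).choose 2 = (r + 1 - a) * (r - a) / 2 := by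
    intro r a h
    rw [Nat.choose_two_right]
    congr 2
    omega
  constructor
  · rintro ((h | ⟨r, s, hr, hm, h⟩) | h)
    · left; rwa [pow_two]
    · right; right
      refine ⟨r, s, hr, hm, ?_⟩
      rcases h with h | ⟨a, ha, ha2, h1, h2⟩
      · left
        rw [pow_two]
        omega
      · right
        refine ⟨a, ha2, ha, ?_, ?_⟩
        · rwa [e1]
        · rwa [e1, e2 r a ha]
    · exact Or.inr (Or.inl h)
  · rintro (h | h | ⟨r, s, hr, hm, h⟩)
    · left; left; rwa [pow_two] at h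
    · exact Or.inr h
    · left; right
      refine ⟨r, s, hr, hm, ?_⟩
      rcases h with h | ⟨a, ha2, ha, h1, h2⟩
      · left
        rw [pow_two] at h
        omega
      · right
        refine ⟨a, ha, ha2, ?_, ?_⟩
        · rwa [e1] at h1
        · rwa [e1, e2 r a ha] at h2

end Pool.Agent.Results.MP_ce7760_an.FullDetermination
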